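import Mathlib

open Relation

namespace Pool.Agent.Lib.P13c925

/-- The Kakutani map `C_{7,{2,3,5}}`. -/
def C (m : ℕ) : ℕ :=
  if 2 ∣ m then m / 2 else if 3 ∣ m then m / 3 else if 5 ∣ m then m / 5 else 7 * m + 1

/-- `n` reaches `1`. -/
def Reaches (n : ℕ) : Prop := ∃ k : ℕ, C^[k] n = 1

theorem Reaches.of_C {n : ℕ} (h : Reaches (C n)) : Reaches n := by
  obtain ⟨k, hk⟩ := h
  exact ⟨k + 1, by rw [Function.iterate_succ_apply]; exact hk⟩

theorem C_two_mul (n : ℕ) : C (2 * n) = n := by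
  unfold C
  rw [if_pos (Dvd.intro _ rfl)]
  omega

theorem C_three_mul {n : ℕ} (h : ¬ 2 ∣ n) : C (3 * n) = n := by
  unfold C
  rw [if_neg (by omega), if_pos (Dvd.intro _ rfl)]
  omega

theorem C_five_mul {n : ℕ} (h : ¬ 2 ∣ n) (h3 : ¬ 3 ∣ n) : C (5 * n) = n := by
  unfold C
  rw [if_neg (by omega), if_neg (by omega), if_pos (Dvd.intro _ rfl)]
  omega

theorem C_seven {n : ℕ} (h : ¬ 2 ∣ n) (h3 : ¬ 3 ∣ n) (h5 : ¬ 5 ∣ n) : C n = 7 * n + 1 := by
  unfold C
  rw [if_neg h, if_neg h3, if_neg h5]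

/-- coprime to `30` -/
def U (n : ℕ) : Prop := ¬ 2 ∣ n ∧ ¬ 3 ∣ n ∧ ¬ 5 ∣ n

theorem U.coprime {n : ℕ} (h : U n) (a b c : ℕ) : Nat.Coprime n (2 ^ a * 3 ^ b * 5 ^ c) := by
  have h2 : Nat.Coprime n 2 := ((Nat.Prime.coprime_iff_not_dvd Nat.prime_two).mpr h.1).symm
  have h3 : Nat.Coprime n 3 := ((Nat.Prime.coprime_iff_not_dvd Nat.prime_three).mpr h.2.1).symm
  have h5 : Nat.Coprime n 5 := ((Nat.Prime.coprime_iff_not_dvd Nat.prime_five).mpr h.2.2).symm
  exact Nat.Coprime.mul_right (Nat.Coprime.mul_right (h2.pow_right a) (h3.pow_right b)) (h5.pow_right c)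

theorem reaches_smooth {m : ℕ} (hm : U m) (hr : Reaches m) (a b c : ℕ) :
    Reaches (2 ^ a * 3 ^ b * 5 ^ c * m) := by
  have h5 : ∀ c : ℕ, Reaches (5 ^ c * m) := by
    intro c
    induction c with
    | zero => simpa using hr
    | succ c ih =>
      apply Reaches.of_C
      have e : 5 ^ (c + 1) * m = 5 * (5 ^ c * m) := by ring
      rw [e, C_five_mul]
      · exact ih
      · intro h
        rcases (Nat.Prime.dvd_mul Nat.prime_two).mp h with h | h
        · have := Nat.Prime.dvd_of_dvd_pow Nat.prime_two h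
          omega
        · exact hm.1 h
      · intro h
        rcases (Nat.Prime.dvd_mul Nat.prime_three).mp h with h | h
        · have := Nat.Prime.dvd_of_dvd_pow Nat.prime_three h
          omega
        · exact hm.2.1 h
  have h3 : ∀ b : ℕ, Reaches (3 ^ b * (5 ^ c * m)) := by
    intro b
    induction b with
    | zero => simpa using h5 c
    | succ b ih =>
      apply Reaches.of_C
      have e : 3 ^ (b + 1) * (5 ^ c * m) = 3 * (3 ^ b * (5 ^ c * m)) := by ring
      rw [e, C_three_mul]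
      · exact ih
      · intro h
        rcases (Nat.Prime.dvd_mul Nat.prime_two).mp h with h | h
        · have := Nat.Prime.dvd_of_dvd_pow Nat.prime_two h
          omega
        · rcases (Nat.Prime.dvd_mul Nat.prime_two).mp h with h | h
          · have := Nat.Prime.dvd_of_dvd_pow Nat.prime_two h
            omega
          · exact hm.1 h
  induction a with
  | zero =>
    have := h3 b
    simpa [mul_assoc] using this
  | succ a ih =>
    apply Reaches.of_C
    have e : 2 ^ (a + 1) * 3 ^ b * 5 ^ c * m = 2 * (2 ^ a * 3 ^ b * 5 ^ c * m) := by ring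
    rw [e, C_two_mul]
    exact ih

/-- `m` is the next element coprime to `30` after `n`. -/
def Par (n m : ℕ) : Prop := U n ∧ U m ∧ ∃ a b c : ℕ, 7 * n + 1 = 2 ^ a * 3 ^ b * 5 ^ c * m

theorem Par.reaches {n m : ℕ} (h : Par n m) (hr : Reaches m) : Reaches n := by
  obtain ⟨hn, hm, a, b, c, e⟩ := h
  apply Reaches.of_C
  rw [C_seven hn.1 hn.2.1 hn.2.2, e]
  exact reaches_smooth hm hr a b c

theorem Par.rightUnique : Relator.RightUnique Par := by
  intro n m m' h h'
  obtain ⟨_, hm, a, b, c, e⟩ := h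
  obtain ⟨_, hm', a', b', c', e'⟩ := h'
  rw [e] at e'
  apply Nat.dvd_antisymm
  · have : m ∣ 2 ^ a' * 3 ^ b' * 5 ^ c' * m' := by rw [← e']; exact Dvd.intro_left _ rfl
    exact (hm.coprime a' b' c').dvd_of_dvd_mul_left this
  · have : m' ∣ 2 ^ a * 3 ^ b * 5 ^ c * m := by rw [e']; exact Dvd.intro_left _ rfl
    exact (hm'.coprime a b c).dvd_of_dvd_mul_left this

theorem reaches_of_reflTransGen {n m : ℕ} (h : ReflTransGen Par n m) (hr : Reaches m) :
    Reaches n := by
  induction h using ReflTransGen.head_induction_on with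
  | refl => exact hr
  | head h _ ih => exact h.reaches ih

/-- `m` is not periodic -/
def Acyc (m : ℕ) : Prop := ¬ TransGen Par m m

theorem Acyc.child {n m : ℕ} (h : Par n m) (hm : Acyc m) : Acyc n := by
  intro hn
  apply hm
  -- n → m, and n →+ n, so m →* n
  obtain ⟨m', hnm', hm'n⟩ := TransGen.head'_iff.mp hn
  have : m' = m := Par.rightUnique hnm' h
  subst this
  exact TransGen.tail' hm'n h

/-- the numbers up to `Y` which flow to `m`. -/
noncomputable def Desc (m Y : ℕ) : Finset ℕ := by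
  classical exact (Finset.range (Y + 1)).filter (fun x => ReflTransGen Par x m)

theorem mem_Desc {m Y x : ℕ} : x ∈ Desc m Y ↔ x ≤ Y ∧ ReflTransGen Par x m := by
  classical
  unfold Desc
  simp

theorem Desc_subset {n m Y : ℕ} (h : Par n m) : Desc n Y ⊆ Desc m Y := by
  intro x hx
  rw [mem_Desc] at hx ⊢
  exact ⟨hx.1, hx.2.tail h⟩

theorem Desc_ssubset {n m Y : ℕ} (h : Par n m) (hm : Acyc m) (hmY : m ≤ Y) :
    Desc n Y ⊂ Desc m Y := by
  refine Finset.ssubset_iff_subset_ne.mpr ⟨Desc_subset h, ?_⟩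
  intro heq
  have : m ∈ Desc n Y := by
    rw [heq, mem_Desc]
    exact ⟨hmY, ReflTransGen.refl⟩
  rw [mem_Desc] at this
  exact hm (TransGen.tail' this.2 h)

theorem Desc_disjoint {n n' m Y : ℕ} (h : Par n m) (h' : Par n' m) (hm : Acyc m) (hne : n ≠ n') :
    Disjoint (Desc n Y) (Desc n' Y) := by
  rw [Finset.disjoint_left]
  intro x hx hx'
  rw [mem_Desc] at hx hx'
  have key : ∀ n n' : ℕ, Par n m → Par n' m → n ≠ n' → ReflTransGen Par n n' → False := by
    intro n n' h h' hne hr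
    rcases ReflTransGen.cases_head hr with h1 | ⟨c, hc1, hc2⟩
    · exact hne h1
    · have : c = m := Par.rightUnique hc1 h
      subst this
      exact hm (TransGen.tail' hc2 h')
  rcases ReflTransGen.total_of_right_unique Par.rightUnique hx.2 hx'.2 with h1 | h1
  · exact key n n' h h' hne h1
  · exact key n' n h' h (Ne.symm hne) h1


/-- analytic induction: a weight table satisfying the local inequality gives polynomial growth -/
theorem growth {V : ℕ → ℕ} {L : ℕ → List (ℕ × ℕ)} {W B D : ℕ} {p q : ℕ}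
    (hq : 0 < q) (hpq : p ≤ q) (hW : 0 < W) (hB : 0 < B) (hD : 7 ≤ D)
    (H1 : ∀ m, V m ≤ B)
    (H2 : ∀ m, 0 < V m → ¬ 3 ∣ m ∧ ¬ 5 ∣ m ∧ ¬ 7 ∣ m)
    (H3 : ∀ r < 7, ∀ x ∈ L r, x.1 * r % 7 = 1 ∧ (∃ a b c : ℕ, x.1 = 2 ^ (a + 1) * 3 ^ b * 5 ^ c) ∧
      x.2 ^ q * x.1 ^ p ≤ W ^ q * 7 ^ p ∧ x.1 ≤ D)
    (H3' : ∀ r < 7, ((L r).map Prod.fst).Nodup)
    (H4 : ∀ m, 0 < V m → W * V m ≤ ((L (m % 7)).map (fun x => x.2 * V ((x.1 * m - 1) / 7))).sum)
    {Y : ℕ} :
    ∀ k m : ℕ, (Desc m Y).card ≤ k → 0 < V m → ¬ 2 ∣ m → Acyc m → m ≤ Y →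
      (1 / ((B : ℝ) * D)) * V m * ((Y : ℝ) / m) ^ ((p : ℝ) / q) ≤ ((Desc m Y).card : ℝ) := by
  classical
  intro k
  induction k with
  | zero =>
    intro m hk _ _ _ hmY
    exfalso
    have : m ∈ Desc m Y := by
      rw [mem_Desc]; exact ⟨hmY, ReflTransGen.refl⟩
    have := Finset.card_pos.mpr ⟨m, this⟩
    omega
  | succ k ih =>
    intro m hk hVm hm2 hac hmY
    have h7 := H2 m hVm
    have hm0 : 0 < m := by
      rcases Nat.eq_zero_or_pos m with h | h
      · subst h; simp at hm2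
      · exact h
    have hUm : U m := ⟨hm2, h7.1, h7.2.1⟩
    have hself : m ∈ Desc m Y := by
      rw [mem_Desc]; exact ⟨hmY, ReflTransGen.refl⟩
    have hcard1 : (1 : ℝ) ≤ ((Desc m Y).card : ℝ) := by
      exact_mod_cast Finset.card_pos.mpr ⟨m, hself⟩
    have hmR : (0 : ℝ) < m := by exact_mod_cast hm0
    have hYR : (0 : ℝ) < Y := by exact_mod_cast (lt_of_lt_of_le hm0 hmY)
    have hBR : (0 : ℝ) < B := by exact_mod_cast hB
    have hDR : (0 : ℝ) < D := by exact_mod_cast (by omega : 0 < D)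
    have hWR : (0 : ℝ) < W := by exact_mod_cast hW
    have hs0 : 0 ≤ (p : ℝ) / q := by positivity
    have hs1 : (p : ℝ) / q ≤ 1 := by
      rw [div_le_one (by exact_mod_cast hq)]
      exact_mod_cast hpq
    have hr7 : m % 7 < 7 := Nat.mod_lt _ (by norm_num)
    -- children
    set F : Finset (ℕ × ℕ) := (L (m % 7)).toFinset.filter (fun x => 0 < V ((x.1 * m - 1) / 7)) with hF
    have hchild : ∀ x ∈ L (m % 7), 0 < V ((x.1 * m - 1) / 7) →
        Par ((x.1 * m - 1) / 7) m ∧ 7 * ((x.1 * m - 1) / 7) + 1 = x.1 * m ∧ ¬ 2 ∣ ((x.1 * m - 1) / 7) := by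
      intro x hx hVx
      obtain ⟨hx1, ⟨a, b, c, habc⟩, _, _⟩ := H3 (m % 7) hr7 x hx
      have hmod : x.1 * m % 7 = 1 := by
        rw [Nat.mul_mod, Nat.mod_mod] at hx1
        rw [Nat.mul_mod]; exact hx1
      have hge : 1 ≤ x.1 * m := by
        rcases Nat.eq_zero_or_pos (x.1 * m) with h | h
        · rw [h] at hmod; simp at hmod
        · exact h
      have heq : 7 * ((x.1 * m - 1) / 7) + 1 = x.1 * m := by omega
      have h2 : ¬ 2 ∣ ((x.1 * m - 1) / 7) := by
        intro h
        have h2' : 2 ∣ x.1 * m := by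
          rw [habc]
          exact ⟨2 ^ a * 3 ^ b * 5 ^ c * m, by ring⟩
        omega
      have h3 := H2 _ hVx
      exact ⟨⟨⟨h2, h3.1, h3.2.1⟩, hUm, a + 1, b, c, by rw [heq, habc]⟩, heq, h2⟩
    by_cases hbig : ∀ x ∈ F, (x.1 * m - 1) / 7 ≤ Y
    · -- all children are below `Y`
      have hdisj : Set.PairwiseDisjoint (F : Set (ℕ × ℕ)) (fun x => Desc ((x.1 * m - 1) / 7) Y) := by
        intro x hx y hy hxy
        have hx' := Finset.mem_filter.mp (Finset.mem_coe.mp hx)
        have hy' := Finset.mem_filter.mp (Finset.mem_coe.mp hy)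
        have hcx := hchild x (List.mem_toFinset.mp hx'.1) hx'.2
        have hcy := hchild y (List.mem_toFinset.mp hy'.1) hy'.2
        refine Desc_disjoint hcx.1 hcy.1 hac ?_
        intro heq
        apply hxy
        have h1 : x.1 * m = y.1 * m := by rw [← hcx.2.1, ← hcy.2.1, heq]
        have h2 : x.1 = y.1 := Nat.eq_of_mul_eq_mul_right hm0 h1
        exact List.inj_on_of_nodup_map (H3' (m % 7) hr7) (List.mem_toFinset.mp hx'.1)
          (List.mem_toFinset.mp hy'.1) h2
      have hunion : F.biUnion (fun x => Desc ((x.1 * m - 1) / 7) Y) ⊆ Desc m Y := by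
        intro z hz
        rw [Finset.mem_biUnion] at hz
        obtain ⟨x, hx, hzx⟩ := hz
        have hx' := Finset.mem_filter.mp hx
        exact Desc_subset (hchild x (List.mem_toFinset.mp hx'.1) hx'.2).1 hzx
      have hcard : ∑ x ∈ F, ((Desc ((x.1 * m - 1) / 7) Y).card : ℝ) ≤ ((Desc m Y).card : ℝ) := by
        rw [← Nat.cast_sum, ← Finset.card_biUnion hdisj]
        exact_mod_cast Finset.card_le_card hunion
      refine le_trans ?_ hcard
      -- lower bound for each child
      have hterm : ∀ x ∈ F, (1 / ((B : ℝ) * D)) * ((x.2 : ℝ) / W * V ((x.1 * m - 1) / 7)) *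
          ((Y : ℝ) / m) ^ ((p : ℝ) / q) ≤ ((Desc ((x.1 * m - 1) / 7) Y).card : ℝ) := by
        intro x hx
        have hx' := Finset.mem_filter.mp hx
        have hxL := List.mem_toFinset.mp hx'.1
        have hc := hchild x hxL hx'.2
        have h3 := H3 (m % 7) hr7 x hxL
        set n := (x.1 * m - 1) / 7 with hn
        have hn0 : 0 < n := by
          rcases Nat.eq_zero_or_pos n with h | h
          · rw [h] at hc; exact absurd (dvd_zero 2) hc.2.2
          · exact h
        have hss := Desc_ssubset hc.1 hac hmY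
        have hlt := Finset.card_lt_card hss
        have hind := ih n (by omega) hx'.2 hc.2.2 (Acyc.child hc.1 hac) (hbig x hx)
        refine le_trans ?_ hind
        have hnR : (0 : ℝ) < n := by exact_mod_cast hn0
        have hxd : (0 : ℝ) < x.1 := by
          have : 0 < x.1 := by
            rcases Nat.eq_zero_or_pos x.1 with h | h
            · have := hc.2.1; rw [h] at this; omega
            · exact h
          exact_mod_cast this
        -- Y / n ≥ (7 / d) * (Y / m)
        have hle : (7 / (x.1 : ℝ)) * ((Y : ℝ) / m) ≤ (Y : ℝ) / n := by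
          have e : 7 * (n : ℝ) + 1 = x.1 * m := by exact_mod_cast hc.2.1
          rw [div_mul_div_comm, div_le_div_iff₀ (by positivity) hnR]
          nlinarith
        have hw : (x.2 : ℝ) / W ≤ (7 / (x.1 : ℝ)) ^ ((p : ℝ) / q) := by
          have hq' : (q : ℝ) ≠ 0 := by exact_mod_cast hq.ne'
          have h1 : ((x.2 : ℝ) / W) ^ q ≤ (7 / (x.1 : ℝ)) ^ p := by
            rw [div_pow, div_pow, div_le_div_iff₀ (by positivity) (by positivity)]
            have := h3.2.2.1
            have h' : (x.2 : ℝ) ^ q * (x.1 : ℝ) ^ p ≤ (W : ℝ) ^ q * 7 ^ p := by exact_mod_cast this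
            linarith
          have h2 : (0 : ℝ) ≤ (x.2 : ℝ) / W := by positivity
          have h4 : (0 : ℝ) ≤ 7 / (x.1 : ℝ) := by positivity
          calc (x.2 : ℝ) / W = (((x.2 : ℝ) / W) ^ q) ^ ((1 : ℝ) / q) := by
                rw [← Real.rpow_natCast, ← Real.rpow_mul h2, mul_one_div_cancel hq',
                  Real.rpow_one]
            _ ≤ ((7 / (x.1 : ℝ)) ^ p) ^ ((1 : ℝ) / q) :=
                Real.rpow_le_rpow (by positivity) h1 (by positivity)
            _ = (7 / (x.1 : ℝ)) ^ ((p : ℝ) / q) := by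
                rw [← Real.rpow_natCast, ← Real.rpow_mul h4]
                congr 1
                field_simp
        calc (1 / ((B : ℝ) * D)) * ((x.2 : ℝ) / W * V n) * ((Y : ℝ) / m) ^ ((p : ℝ) / q)
            = (1 / ((B : ℝ) * D)) * V n * (((x.2 : ℝ) / W) * ((Y : ℝ) / m) ^ ((p : ℝ) / q)) := by ring
          _ ≤ (1 / ((B : ℝ) * D)) * V n * ((7 / (x.1 : ℝ)) ^ ((p : ℝ) / q) * ((Y : ℝ) / m) ^ ((p : ℝ) / q)) := by
              gcongr
          _ = (1 / ((B : ℝ) * D)) * V n * ((7 / (x.1 : ℝ)) * ((Y : ℝ) / m)) ^ ((p : ℝ) / q) := by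
              rw [Real.mul_rpow (by positivity) (by positivity)]
          _ ≤ (1 / ((B : ℝ) * D)) * V n * ((Y : ℝ) / n) ^ ((p : ℝ) / q) := by
              gcongr
      refine le_trans ?_ (Finset.sum_le_sum hterm)
      rw [← Finset.sum_mul, ← Finset.mul_sum]
      have h4 := H4 m hVm
      have hsum : (V m : ℝ) ≤ ∑ x ∈ F, ((x.2 : ℝ) / W * V ((x.1 * m - 1) / 7)) := by
        have hnd : (L (m % 7)).Nodup := List.Nodup.of_map _ (H3' (m % 7) hr7)
        have e1 : ((L (m % 7)).map (fun x => x.2 * V ((x.1 * m - 1) / 7))).sum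
            = ∑ x ∈ (L (m % 7)).toFinset, x.2 * V ((x.1 * m - 1) / 7) := by
          rw [List.sum_toFinset _ hnd]
        have e2 : ∑ x ∈ (L (m % 7)).toFinset, x.2 * V ((x.1 * m - 1) / 7)
            = ∑ x ∈ F, x.2 * V ((x.1 * m - 1) / 7) := by
          rw [hF, Finset.sum_filter_of_ne]
          intro x _ hx
          rcases Nat.eq_zero_or_pos (V ((x.1 * m - 1) / 7)) with h | h
          · rw [h] at hx; simp at hx
          · exact h
        rw [e1, e2] at h4
        have h5 : (W : ℝ) * V m ≤ ∑ x ∈ F, ((x.2 : ℝ) * V ((x.1 * m - 1) / 7)) := by exact_mod_cast h4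
        have h6 : ∑ x ∈ F, ((x.2 : ℝ) / W * V ((x.1 * m - 1) / 7))
            = (∑ x ∈ F, ((x.2 : ℝ) * V ((x.1 * m - 1) / 7))) / W := by
          rw [Finset.sum_div]
          refine Finset.sum_congr rfl fun x _ => ?_
          ring
        rw [h6, le_div_iff₀ hWR]
        linarith
      gcongr
    · -- some child exceeds `Y`: trivial bound
      push Not at hbig
      obtain ⟨x, hx, hxY⟩ := hbig
      have hx' := Finset.mem_filter.mp hx
      have hxL := List.mem_toFinset.mp hx'.1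
      have h3 := H3 (m % 7) hr7 x hxL
      have hYm : (Y : ℝ) / m ≤ D := by
        rw [div_le_iff₀ hmR]
        have h5 : Y ≤ D * m := by
          have h6 : x.1 * m ≤ D * m := Nat.mul_le_mul_right _ h3.2.2.2
          have h7 : (x.1 * m - 1) / 7 ≤ x.1 * m := by omega
          omega
        exact_mod_cast h5
      have hYm1 : 1 ≤ (Y : ℝ) / m := by
        rw [le_div_iff₀ hmR, one_mul]
        exact_mod_cast hmY
      have hpow : ((Y : ℝ) / m) ^ ((p : ℝ) / q) ≤ D := by
        calc ((Y : ℝ) / m) ^ ((p : ℝ) / q) ≤ ((Y : ℝ) / m) ^ (1 : ℝ) :=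
              Real.rpow_le_rpow_of_exponent_le hYm1 hs1
          _ = (Y : ℝ) / m := Real.rpow_one _
          _ ≤ D := hYm
      have hVB : (V m : ℝ) ≤ B := by exact_mod_cast H1 m
      refine le_trans ?_ hcard1
      calc (1 / ((B : ℝ) * D)) * V m * ((Y : ℝ) / m) ^ ((p : ℝ) / q)
          ≤ (1 / ((B : ℝ) * D)) * B * D := by gcongr
        _ = 1 := by field_simp

end Pool.Agent.Lib.P13c925
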